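import Pool.Agent.H61.AR.Targets

/-! Row AL1: the divergence of `(x - c) / (|x - c|² + e)` (pointwise algebra). -/

set_option autoImplicit false

open Set Function MeasureTheory Filter Topology
open scoped Manifold ContDiff Matrix
open Pool.Agent.H60.CM Pool.Agent.H61.AR

namespace Pool.Agent.H68.ARQ

theorem al1_sum (X0 X1 n f0 f1 g0 g1 : V3) :
    ∑ i : Fin 3, brk X0 X1 n (f0 i) (f1 i) (g0 i) (g1 i) =
      (f0 ⬝ᵥ g1 - f1 ⬝ᵥ g0) / ((X0 ⨯₃ X1) ⬝ᵥ n) := by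
  unfold brk
  rw [← Finset.sum_div]
  congr 1
  rw [Finset.sum_sub_distrib]
  rfl

theorem al1_trip (n X0 X1 : V3) (i : Fin 3) :
    (n ⬝ᵥ n) * (X0 ⨯₃ X1) i = ((X0 ⨯₃ X1) ⬝ᵥ n) * n i -
      (n ⨯₃ ((n ⬝ᵥ X1) • X0 - (n ⬝ᵥ X0) • X1)) i := by
  fin_cases i <;>
  simp [cross_apply, dotProduct, Fin.sum_univ_three] <;> ring

theorem al1_cramer (X0 X1 n v : V3) (i : Fin 3) :
    ((X0 ⨯₃ X1) ⬝ᵥ n) * v i = ((v ⨯₃ X1) ⬝ᵥ n) * X0 i + ((X0 ⨯₃ v) ⬝ᵥ n) * X1 i +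
      ((X0 ⨯₃ X1) ⬝ᵥ v) * n i := by
  fin_cases i <;>
  simp [cross_apply, dotProduct, Fin.sum_univ_three] <;> ring

/-- the scalar triple product -/
theorem al1_tri (a b c : V3) : (a ⨯₃ b) ⬝ᵥ c = b ⬝ᵥ (c ⨯₃ a) := by
  simp only [cross_apply, dotProduct, Fin.sum_univ_three, Matrix.cons_val_zero,
    Matrix.cons_val_one, Matrix.cons_val]
  ring

theorem al1_tri2 (a b c : V3) : (a ⨯₃ b) ⬝ᵥ c = a ⬝ᵥ (b ⨯₃ c) := by
  simp only [cross_apply, dotProduct, Fin.sum_univ_three, Matrix.cons_val_zero,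
    Matrix.cons_val_one, Matrix.cons_val]
  ring

theorem al1_dot_cross (a b : V3) : a ⬝ᵥ (a ⨯₃ b) = 0 := by
  simp only [cross_apply, dotProduct, Fin.sum_univ_three, Matrix.cons_val_zero,
    Matrix.cons_val_one, Matrix.cons_val]
  ring

theorem al1_dot_cross2 (a b : V3) : a ⬝ᵥ (b ⨯₃ a) = 0 := by
  simp only [cross_apply, dotProduct, Fin.sum_univ_three, Matrix.cons_val_zero,
    Matrix.cons_val_one, Matrix.cons_val]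
  ring

theorem pf_AL1 : T_AL1 := by
  intro X0 X1 n n0 n1 H F X e φ he hφ
  obtain ⟨himm, hunit, hx0, hx1, hn0, hn1, hsym, hcmc⟩ := F
  obtain ⟨w, hw⟩ : ∃ w, w = (X0 ⨯₃ X1) ⬝ᵥ n := ⟨_, rfl⟩
  have hc : X0 ⨯₃ X1 = w • n := by
    funext i
    have h := al1_trip n X0 X1 i
    rw [hunit, hx0, hx1, zero_smul, zero_smul, sub_zero, one_mul, ← hw] at h
    rw [h, Pi.smul_apply, smul_eq_mul, map_zero]
    simp
  have hw0 : w ≠ 0 := by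
    intro h
    rw [h, zero_smul] at hc
    exact himm hc
  -- the decomposition of `X`
  obtain ⟨p, q, hX⟩ : ∃ p q : ℝ, X = p • X0 + q • X1 + (X ⬝ᵥ n) • n := by
    refine ⟨((X ⨯₃ X1) ⬝ᵥ n) / w, ((X0 ⨯₃ X) ⬝ᵥ n) / w, ?_⟩
    funext i
    have h := al1_cramer X0 X1 n X i
    have h2 : (X0 ⨯₃ X1) ⬝ᵥ X = w * (X ⬝ᵥ n) := by
      rw [hc, smul_dotProduct, smul_eq_mul, dotProduct_comm n X]
    rw [h2, ← hw] at h
    simp only [Pi.add_apply, Pi.smul_apply, smul_eq_mul]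
    field_simp
    linarith
  obtain ⟨r, hr⟩ : ∃ r, r = X ⬝ᵥ n := ⟨_, rfl⟩
  rw [← hr] at hX
  have hx0' : X0 ⬝ᵥ n = 0 := by rw [dotProduct_comm, hx0]
  have hx1' : X1 ⬝ᵥ n = 0 := by rw [dotProduct_comm, hx1]
  have h1 : X ⬝ᵥ X0 = p * (X0 ⬝ᵥ X0) + q * (X0 ⬝ᵥ X1) := by
    rw [hX]
    simp only [add_dotProduct, smul_dotProduct, smul_eq_mul, hx0]
    rw [dotProduct_comm X1 X0]
    ring
  have h2 : X ⬝ᵥ X1 = p * (X0 ⬝ᵥ X1) + q * (X1 ⬝ᵥ X1) := by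
    rw [hX]
    simp only [add_dotProduct, smul_dotProduct, smul_eq_mul, hx1]
    ring
  have h3 : X ⬝ᵥ X = p ^ 2 * (X0 ⬝ᵥ X0) + 2 * p * q * (X0 ⬝ᵥ X1) + q ^ 2 * (X1 ⬝ᵥ X1) +
      r ^ 2 := by
    nth_rw 1 [hX]
    simp only [add_dotProduct, smul_dotProduct, smul_eq_mul]
    rw [dotProduct_comm X0 X, dotProduct_comm X1 X, dotProduct_comm n X, h1, h2, ← hr]
    ring
  have h4 : X ⬝ᵥ (X1 ⨯₃ n) = p * w := by
    rw [hX]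
    simp only [add_dotProduct, smul_dotProduct, smul_eq_mul]
    rw [al1_dot_cross, al1_dot_cross2, ← al1_tri2 X0 X1 n, ← hw]
    ring
  have h5 : X ⬝ᵥ (X0 ⨯₃ n) = -(q * w) := by
    rw [hX]
    simp only [add_dotProduct, smul_dotProduct, smul_eq_mul]
    rw [al1_dot_cross, al1_dot_cross2, ← al1_tri2 X1 X0 n, ← cross_anticomm X0 X1,
      neg_dotProduct, ← hw]
    ring
  have h6 : X ⬝ᵥ (n0 ⨯₃ X1) + X ⬝ᵥ (X0 ⨯₃ n1) = -2 * H * (w * r) := by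
    rw [← dotProduct_add, hcmc, hc, dotProduct_smul, dotProduct_smul, smul_eq_mul, smul_eq_mul,
      ← hr]
  -- the numerator
  have hA : (n0 ⨯₃ (φ • X) + n ⨯₃ ((-(2 * φ ^ 2 * (X ⬝ᵥ X0))) • X + φ • X0)) ⬝ᵥ X1 =
      -(φ * (X ⬝ᵥ (n0 ⨯₃ X1))) + -(2 * φ ^ 2 * (X ⬝ᵥ X0)) * (X ⬝ᵥ (X1 ⨯₃ n)) + φ * w := by
    have k1 : (n0 ⨯₃ (φ • X)) ⬝ᵥ X1 = -(φ * (X ⬝ᵥ (n0 ⨯₃ X1))) := by
      rw [map_smul, smul_dotProduct, smul_eq_mul, al1_tri, ← cross_anticomm n0 X1,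
        dotProduct_neg]
      ring
    have k2 : (n ⨯₃ X0) ⬝ᵥ X1 = w := by
      rw [al1_tri2, dotProduct_comm, ← hw]
    rw [add_dotProduct, k1, map_add, map_smul, map_smul, add_dotProduct, smul_dotProduct,
      smul_dotProduct, smul_eq_mul, smul_eq_mul, k2, al1_tri n X X1]
    ring
  have hB : (n1 ⨯₃ (φ • X) + n ⨯₃ ((-(2 * φ ^ 2 * (X ⬝ᵥ X1))) • X + φ • X1)) ⬝ᵥ X0 =
      φ * (X ⬝ᵥ (X0 ⨯₃ n1)) + -(2 * φ ^ 2 * (X ⬝ᵥ X1)) * (X ⬝ᵥ (X0 ⨯₃ n)) - φ * w := by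
    have k1 : (n1 ⨯₃ (φ • X)) ⬝ᵥ X0 = φ * (X ⬝ᵥ (X0 ⨯₃ n1)) := by
      rw [map_smul, smul_dotProduct, smul_eq_mul, al1_tri]
    have k2 : (n ⨯₃ X1) ⬝ᵥ X0 = -w := by
      rw [al1_tri2, dotProduct_comm, ← cross_anticomm X0 X1, neg_dotProduct, ← hw]
    rw [add_dotProduct, k1, map_add, map_smul, map_smul, add_dotProduct, smul_dotProduct,
      smul_dotProduct, smul_eq_mul, smul_eq_mul, k2, al1_tri n X X0]
    ring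
  have hphi : φ * (X ⬝ᵥ X + e) = 1 := by
    rw [hφ]
    have h0 : 0 ≤ X ⬝ᵥ X := by
      simp only [dotProduct, Fin.sum_univ_three]
      nlinarith [mul_self_nonneg (X 0), mul_self_nonneg (X 1), mul_self_nonneg (X 2)]
    have : X ⬝ᵥ X + e ≠ 0 := by linarith
    field_simp
  rw [al1_sum X0 X1 n (n0 ⨯₃ (φ • X) + n ⨯₃ ((-(2 * φ ^ 2 * (X ⬝ᵥ X0))) • X + φ • X0))
    (n1 ⨯₃ (φ • X) + n ⨯₃ ((-(2 * φ ^ 2 * (X ⬝ᵥ X1))) • X + φ • X1)) X0 X1, hA, hB, ← hw,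
    div_eq_iff hw0, ← hr, h4, h5, h1, h2]
  rw [h3] at hphi
  linear_combination (-φ) * h6 - 2 * φ * w * hphi

end Pool.Agent.H68.ARQ
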