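import Pool.Agent.H61.AR.Targets

/-! Row CPB: supports in a half box. -/

set_option autoImplicit false

open Set Function MeasureTheory Filter Topology
open scoped Manifold ContDiff Matrix
open Pool.Agent.H60.CM Pool.Agent.H61.AR

namespace Pool.Agent.H68.ARQ

theorem pf_CPB : T_CPB := by
  intro D a ψ hB f hf
  have ha := hB.pos
  have hcoord : ∀ i : Fin 2, Continuous fun y : E2 => y i := fun i => by fun_prop
  let ι := {a' : ℝ // 0 < a' ∧ a' < a}
  let G : ι → Set E2 := fun t => {y | y 0 < t.1 ∧ |y 1| < t.1}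
  have hG : ∀ t, IsOpen (G t) := fun t =>
    (isOpen_lt (hcoord 0) continuous_const).inter
      (isOpen_lt (continuous_abs.comp (hcoord 1)) continuous_const)
  have hmono : ∀ s t : ι, s.1 ≤ t.1 → G s ⊆ G t := fun s t h y hy =>
    ⟨lt_of_lt_of_le hy.1 h, lt_of_lt_of_le hy.2 h⟩
  have : Nonempty ι := ⟨⟨a / 2, by linarith, by linarith⟩⟩
  have hcomp : IsCompact (tsupport f) := (isClosed_tsupport f).isCompact
  obtain ⟨t, ht⟩ := hcomp.elim_directed_cover (fun t : ι => ψ '' (Qb a ∩ G t))
    (fun t => hB.im (G t) (hG t)) (by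
      intro p hp
      obtain ⟨y, hy, rfl⟩ := hf hp
      obtain ⟨h0, h1, h2⟩ := hy
      have hm : max (y 0) |y 1| < a := max_lt h1 h2
      have hpos : 0 ≤ max (y 0) |y 1| := le_trans h0 (le_max_left _ _)
      refine mem_iUnion.2 ⟨⟨(max (y 0) |y 1| + a) / 2, by linarith, by linarith⟩, y,
        ⟨⟨h0, h1, h2⟩, ?_, ?_⟩, rfl⟩
      · have := le_max_left (y 0) |y 1|
        show y 0 < (max (y 0) |y 1| + a) / 2
        linarith
      · have := le_max_right (y 0) |y 1|
        show |y 1| < (max (y 0) |y 1| + a) / 2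
        linarith) (by
      intro s t
      rcases le_total s.1 t.1 with h | h
      · exact ⟨t, image_mono (inter_subset_inter_right _ (hmono s t h)), Subset.rfl⟩
      · exact ⟨s, Subset.rfl, image_mono (inter_subset_inter_right _ (hmono t s h))⟩)
  refine ⟨t.1, t.2.1, t.2.2, fun y hy hy2 => ?_⟩
  by_contra hne
  obtain ⟨z, ⟨hz, hz2⟩, hzy⟩ := ht (subset_tsupport f hne)
  have hyz := hB.inj hz hy hzy
  subst hyz
  rcases hy2 with h | h
  · exact lt_asymm h hz2.1
  · exact lt_asymm h hz2.2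

end Pool.Agent.H68.ARQ
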